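import Pool.Agent.helper81.EP.SpecC

/-!
Project ep: module CV: an even value of the partition function for every suitable prime.
-/

set_option autoImplicit false

open Finset
open scoped Real

noncomputable section

namespace Pool.Agent.EP

theorem CV_pp {n : ℕ} (h : pp n ≠ 1) : Even (Fintype.card (Nat.Partition n)) := by
  unfold pp at h
  rw [← Nat.not_odd_iff_even]
  intro ho
  apply h
  obtain ⟨k, hk⟩ := ho
  rw [hk]
  push_cast
  have h2 : (2 : ZMod 2) = 0 := by decide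
  rw [h2]
  simp

theorem CV_pow (b : ℕ) (hb : 2 ≤ b) : 4 ^ b % 24 = 16 ∧ 16 ≤ 4 ^ b := by
  induction b, hb using Nat.le_induction with
  | base => norm_num
  | succ a _ ih =>
    rw [pow_succ]
    omega

theorem CV_val {A n w d s M p : ℕ} (hA : A % 24 = 16) (hA16 : 16 ≤ A) (hw1 : w % 2 = 1)
    (hw2 : 3 * w ^ 2 < A) (hp : p.Prime) (hAp : A < p) (hpM : p ∣ M) (hM0 : 0 < M)
    (hn : 24 * n + 3 = M + A) (hd1 : d ∣ A - 3 * w ^ 2) (hd2 : d ∣ M)
    (hs : s = ((A - 3 * w ^ 2) * M / d ^ 2 + 1) / 24) :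
    1 ≤ s ∧ s ≤ A * n ∧ p ∣ 24 * s - 1 := by
  have hwsq : 3 * w ^ 2 % 24 = 3 := by
    have h8 : w % 8 = 1 ∨ w % 8 = 3 ∨ w % 8 = 5 ∨ w % 8 = 7 := by omega
    have h9 : w ^ 2 % 8 = 1 := by
      rcases h8 with h | h | h | h <;> simp [Nat.pow_mod, h]
    omega
  have hwpos : 1 ≤ w ^ 2 := Nat.one_le_pow _ _ (by omega)
  obtain ⟨B, hB⟩ : ∃ B, B = A - 3 * w ^ 2 := ⟨_, rfl⟩
  rw [← hB] at hs hd1
  have hB24 : B % 24 = 13 := by omega
  have hB0 : 0 < B := by omega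
  have hd0 : 0 < d := Nat.pos_of_dvd_of_pos hd1 hB0
  have hdB : d ≤ B := Nat.le_of_dvd hB0 hd1
  have hd2' : d % 2 = 1 := by
    by_contra h
    have h2 : 2 ∣ d := by omega
    have h3 := h2.trans hd1
    omega
  have hd3 : d % 3 ≠ 0 := by
    intro h
    have h2 : 3 ∣ d := by omega
    have h3 := h2.trans hd1
    omega
  have hdsq : d ^ 2 % 24 = 1 := by
    have h8 : d % 24 = 1 ∨ d % 24 = 5 ∨ d % 24 = 7 ∨ d % 24 = 11 ∨ d % 24 = 13 ∨ d % 24 = 17 ∨
        d % 24 = 19 ∨ d % 24 = 23 := by omega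
    rcases h8 with h | h | h | h | h | h | h | h <;> simp [Nat.pow_mod, h]
  have hdpos : 0 < d ^ 2 := by positivity
  have hdvd : d ^ 2 ∣ B * M := by
    rw [sq]; exact Nat.mul_dvd_mul hd1 hd2
  obtain ⟨Q, hQ⟩ := hdvd
  have hQ' : B * M / d ^ 2 = Q := by
    rw [hQ]; exact Nat.mul_div_cancel_left _ hdpos
  rw [hQ'] at hs
  have hM24 : M % 24 = 11 := by omega
  have hBM : (B * M) % 24 = 23 := by
    rw [Nat.mul_mod, hB24, hM24]
  have hQ24 : Q % 24 = 23 := by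
    rw [hQ, Nat.mul_mod, hdsq] at hBM
    simpa using hBM
  have hs24 : 24 * s = Q + 1 := by omega
  have hQle : Q ≤ B * M := by
    rw [hQ]; exact Nat.le_mul_of_pos_left _ hdpos
  have hpQ : p ∣ Q := by
    have h1 : p ∣ d ^ 2 * Q := by
      rw [← hQ]
      exact hpM.mul_left B
    rcases hp.dvd_mul.1 h1 with h2 | h2
    · have h3 := Nat.le_of_dvd hd0 (hp.dvd_of_dvd_pow h2)
      omega
    · exact h2
  have hBM2 : B * M ≤ (A - 3) * (24 * n) := Nat.mul_le_mul (by omega) (by omega)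
  have hA3 : (A - 3) * (24 * n) + 3 * (24 * n) = A * (24 * n) := by
    rw [← Nat.add_mul]; congr 1; omega
  refine ⟨by omega, ?_, ?_⟩
  · have h1 : 24 * s ≤ 24 * (A * n) := by
      have : 24 * (A * n) = A * (24 * n) := by ring
      omega
    omega
  · have : 24 * s - 1 = Q := by omega
    rw [this]
    exact hpQ

theorem CV (hIDL : IDL_stmt) (hCG : CG_stmt) (hCN : CN_stmt) : CV_stmt := by
  intro b l i r p n hb hl hl5 hr hp hbp hn hodd hrs
  have hA : (2 : ℕ) ^ (2 * b) = 4 ^ b := by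
    rw [pow_mul]; norm_num
  obtain ⟨hA24, hA16⟩ := CV_pow b hb
  have hr0 : 0 < r := by
    have h1 : ∀ x ∈ In8, 0 < x := by decide
    exact h1 r hr
  have hM0 : 0 < l ^ i * r * p := by
    have h1 := hl.pos
    have h2 := hp.pos
    positivity
  have hid := hIDL (2 * b) n (by omega) (by rw [hA]; omega)
  rw [hA, hrs, Finset.sum_empty] at hid
  have hM : 24 * n + 3 - 4 ^ b = l ^ i * r * p := by omega
  rw [hM] at hid
  by_contra hno
  push Not at hno
  have hR : ∑ w ∈ ws (4 ^ b), ∑ d ∈ (Nat.gcd (4 ^ b - 3 * w ^ 2) (l ^ i * r * p)).divisors,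
      pp (((4 ^ b - 3 * w ^ 2) * (l ^ i * r * p) / d ^ 2 + 1) / 24) =
      ((∑ w ∈ ws (4 ^ b), #(Nat.gcd (4 ^ b - 3 * w ^ 2) (l ^ i)).divisors : ℕ) : ZMod 2) := by
    rw [Nat.cast_sum]
    refine Finset.sum_congr rfl fun w hw => ?_
    obtain ⟨-, hw1, hw2⟩ := Finset.mem_filter.1 hw
    rw [← hCG b l i r p w hr hp hbp hw2]
    rw [Finset.sum_congr rfl (g := fun _ => (1 : ZMod 2)) fun d hd => ?_]
    · simp
    · by_contra hne1
      have hev := CV_pp hne1
      have hdg := Nat.dvd_of_mem_divisors hd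
      obtain ⟨g1, g2, g3⟩ := CV_val hA24 hA16 hw1 hw2 hp hbp (Dvd.intro_left _ rfl) hM0 hn
        (hdg.trans (Nat.gcd_dvd_left _ _)) (hdg.trans (Nat.gcd_dvd_right _ _)) rfl
      exact hno _ g1 g2 hev g3
  rw [hR, hCN b l i hl] at hid
  obtain ⟨k, hk⟩ := hodd
  rw [hk] at hid
  push_cast at hid
  have h2 : (2 : ZMod 2) = 0 := by decide
  rw [h2, zero_mul, zero_add] at hid
  exact zero_ne_one hid

end Pool.Agent.EP
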